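import Mathlib

/-!
The Wijsman hyperspace of a completely metrizable space, and winning strategies of the
nonempty player in the strong Choquet game which use only the last move.
-/

namespace Pool.Agent.Results.MP_491d6e_gt.WijsmanTactic

open Set Topology Metric Filter

universe u

/-- The nonempty closed subsets of `X`. -/
abbrev Hyper (X : Type u) [TopologicalSpace X] : Type u := {A : Set X // IsClosed A ∧ A.Nonempty}

/-- The Wijsman topology of the metric of `X`: the weakest topology on the nonempty closed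
subsets which makes every map `A ↦ dist (x, A)` continuous. -/
noncomputable abbrev wijsman (X : Type u) [MetricSpace X] : TopologicalSpace (Hyper X) :=
  ⨅ x : X, TopologicalSpace.induced (fun A : Hyper X => infDist x A.1) inferInstance

/-- `T` is a winning tactic for the nonempty player in the strong Choquet game on `Y`:
`T y U` is the answer to the last move `(y, U)` of the other player. -/
def IsWinningTactic {Y : Type u} [TopologicalSpace Y] (T : Y → Set Y → Set Y) : Prop :=
  (∀ (y : Y) (U : Set Y), y ∈ U → IsOpen U → IsOpen (T y U) ∧ y ∈ T y U ∧ T y U ⊆ U) ∧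
  ∀ (y : ℕ → Y) (U : ℕ → Set Y), (∀ n, y n ∈ U n ∧ IsOpen (U n)) →
    (∀ n, U (n + 1) ⊆ T (y n) (U n)) → (⋂ n, T (y n) (U n)).Nonempty

/-- The nonempty player has a winning tactic in the strong Choquet game on `Y`. -/
def StronglyAlphaFavorable (Y : Type u) (t : TopologicalSpace Y) : Prop :=
  ∃ T : Y → Set Y → Set Y, IsWinningTactic T

/-- `σ` is a winning strategy for the nonempty player in the strong Choquet game on `Y`:
`σ` answers the list of all the moves `(y_0, U_0), ..., (y_n, U_n)` made by the other player. -/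
def IsWinningStrategy {Y : Type u} [TopologicalSpace Y] (σ : List (Y × Set Y) → Set Y) : Prop :=
  (∀ (h : List (Y × Set Y)) (y : Y) (U : Set Y), y ∈ U → IsOpen U →
    IsOpen (σ (h ++ [(y, U)])) ∧ y ∈ σ (h ++ [(y, U)]) ∧ σ (h ++ [(y, U)]) ⊆ U) ∧
  ∀ p : ℕ → Y × Set Y, (∀ n, (p n).1 ∈ (p n).2 ∧ IsOpen (p n).2) →
    (∀ n, (p (n + 1)).2 ⊆ σ (List.ofFn fun i : Fin (n + 1) => p i)) →
    (⋂ n : ℕ, σ (List.ofFn fun i : Fin (n + 1) => p i)).Nonempty

/-- The nonempty player has a winning strategy in the strong Choquet game on `Y`. -/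
def StronglyChoquet (Y : Type u) (t : TopologicalSpace Y) : Prop :=
  ∃ σ : List (Y × Set Y) → Set Y, IsWinningStrategy σ

/-- A winning tactic is a winning strategy which forgets the earlier moves. -/
theorem StronglyAlphaFavorable.stronglyChoquet {Y : Type u} {t : TopologicalSpace Y}
    (h : StronglyAlphaFavorable Y t) : StronglyChoquet Y t := by
  obtain ⟨T, hT1, hT2⟩ := h
  let σ : List (Y × Set Y) → Set Y := fun l =>
    match l.getLast? with
    | none => univ
    | some q => T q.1 q.2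
  have hσ : ∀ (l : List (Y × Set Y)) (q : Y × Set Y), σ (l ++ [q]) = T q.1 q.2 := by
    intro l q
    simp only [σ, List.getLast?_append, List.getLast?_singleton, Option.some_or]
  have hσ' : ∀ (p : ℕ → Y × Set Y) (n : ℕ),
      σ (List.ofFn fun i : Fin (n + 1) => p i) = T (p n).1 (p n).2 := by
    intro p n
    rw [List.ofFn_succ', ← hσ (List.ofFn fun i : Fin n => p i) (p n)]
    simp
  refine ⟨σ, fun l y U hy hU => ?_, fun p h1 h2 => ?_⟩
  · rw [hσ]
    exact hT1 y U hy hU
  · simp only [hσ'] at h2 ⊢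
    exact hT2 (fun n => (p n).1) (fun n => (p n).2) h1 h2

/-- Completely metrizable spaces are strongly alpha-favorable. -/
theorem tactic_of_complete (X : Type u) [MetricSpace X] [CompleteSpace X] :
    StronglyAlphaFavorable X inferInstance := by
  classical
  have hstep : ∀ (x : X) (U : Set X), ∃ V : Set X, x ∈ U → IsOpen U →
      IsOpen V ∧ x ∈ V ∧ closure V ⊆ U ∧ ediam V ≤ ediam U / 2 ∧ ediam V ≤ 1 := by
    intro x U
    by_cases hxU : x ∈ U ∧ IsOpen U
    swap
    · exact ⟨univ, fun h1 h2 => absurd ⟨h1, h2⟩ hxU⟩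
    obtain ⟨hxU, hU⟩ := hxU
    by_cases hd : ediam U = 0
    · refine ⟨U, fun _ _ => ⟨hU, hxU, ?_, ?_, ?_⟩⟩
      · have hsub : U.Subsingleton := ediam_eq_zero_iff.mp hd
        exact hsub.isClosed.closure_eq.le
      · rw [hd]; simp
      · rw [hd]; simp
    · obtain ⟨r, hr, hrU⟩ := nhds_basis_closedBall.mem_iff.mp (hU.mem_nhds hxU)
      have hpos : 0 < min (ediam U / 2) 1 := by
        refine lt_min ?_ one_pos
        exact ENNReal.half_pos hd
      obtain ⟨s, hs, hs2⟩ : ∃ s : ℝ, 0 < s ∧ ENNReal.ofReal (2 * s) ≤ min (ediam U / 2) 1 := by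
        obtain ⟨c, hc0, hc⟩ := ENNReal.lt_iff_exists_nnreal_btwn.mp hpos
        refine ⟨c / 2, ?_, ?_⟩
        · have : (0 : ℝ) < c := by exact_mod_cast hc0
          linarith
        · have : 2 * ((c : ℝ) / 2) = c := by ring
          rw [this, ENNReal.ofReal_coe_nnreal]
          exact hc.le
      refine ⟨ball x (min r s), fun _ _ => ⟨isOpen_ball, mem_ball_self (lt_min hr hs), ?_, ?_, ?_⟩⟩
      · exact (closure_ball_subset_closedBall).trans
          ((closedBall_subset_closedBall (min_le_left _ _)).trans hrU)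
      all_goals
        have h1 : ediam (ball x (min r s)) ≤ min (ediam U / 2) 1 := by
          refine le_trans ?_ hs2
          refine (ediam_mono (ball_subset_ball (min_le_right r s))).trans ?_
          rw [← Metric.eball_ofReal]
          refine ediam_eball_le.trans ?_
          rw [ENNReal.ofReal_mul (by norm_num)]
          simp
        first
          | exact h1.trans (min_le_left _ _)
          | exact h1.trans (min_le_right _ _)
  choose T hT using hstep
  refine ⟨T, fun y U hy hU => ⟨(hT y U hy hU).1, (hT y U hy hU).2.1,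
    subset_closure.trans (hT y U hy hU).2.2.1⟩, ?_⟩
  intro y U h1 h2
  have h3 : ∀ n, T (y (n + 1)) (U (n + 1)) ⊆ T (y n) (U n) := fun n =>
    (subset_closure.trans (hT _ _ (h1 (n + 1)).1 (h1 (n + 1)).2).2.2.1).trans (h2 n)
  have hanti : Antitone fun n => T (y n) (U n) := antitone_nat_of_succ_le h3
  have hdiam : ∀ n, ediam (T (y n) (U n)) ≤ (1 / 2 : ENNReal) ^ n := by
    intro n
    induction n with
    | zero => simpa using (hT _ _ (h1 0).1 (h1 0).2).2.2.2.2
    | succ n ih =>
      have h4 := (hT _ _ (h1 (n + 1)).1 (h1 (n + 1)).2).2.2.2.1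
      have h5 : ediam (U (n + 1)) ≤ (1 / 2 : ENNReal) ^ n := (ediam_mono (h2 n)).trans ih
      calc _ ≤ ediam (U (n + 1)) / 2 := h4
        _ ≤ (1 / 2 : ENNReal) ^ n / 2 := by gcongr
        _ = (1 / 2 : ENNReal) ^ (n + 1) := by
          rw [pow_succ, ENNReal.div_eq_inv_mul, mul_comm, one_div]
  have hmem : ∀ n m, n ≤ m → y m ∈ T (y n) (U n) := fun n m hnm =>
    hanti hnm (hT _ _ (h1 m).1 (h1 m).2).2.1
  have hcau : CauchySeq y := by
    refine EMetric.cauchySeq_iff_le_tendsto_0.mpr ⟨fun n => (1 / 2 : ENNReal) ^ n, ?_, ?_⟩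
    · intro n m N hn hm
      exact (edist_le_ediam_of_mem (hmem N n hn) (hmem N m hm)).trans (hdiam N)
    · apply ENNReal.tendsto_pow_atTop_nhds_zero_of_lt_one
      simp
  obtain ⟨z, hz⟩ := cauchySeq_tendsto_of_complete hcau
  have hzcl : ∀ n, z ∈ closure (T (y n) (U n)) := fun n =>
    mem_closure_of_tendsto hz (eventually_atTop.mpr ⟨n, fun m hm => hmem n m hm⟩)
  refine ⟨z, mem_iInter.mpr fun n => ?_⟩
  exact h2 n ((hT _ _ (h1 (n + 1)).1 (h1 (n + 1)).2).2.2.1 (hzcl (n + 1)))

theorem tactic_of_completelyMetrizable (X : Type u) [t : TopologicalSpace X]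
    [h : TopologicalSpace.IsCompletelyMetrizableSpace X] : StronglyAlphaFavorable X t := by
  obtain ⟨m, hm, hc⟩ := h.complete
  subst hm
  exact tactic_of_complete X


section Boxes

variable {X : Type u} [MetricSpace X]

/-- The closed sets with upper bounds `H` and lower bounds `M` for finitely many distances. -/
def Box (H M : Finset (X × ℝ)) : Set (Hyper X) :=
  {A | (∀ p ∈ H, infDist p.1 A.1 < p.2) ∧ ∀ p ∈ M, p.2 < infDist p.1 A.1}

/-- The points allowed by the lower bounds `M`. -/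
def Rem (M : Finset (X × ℝ)) : Set X := {x | ∀ p ∈ M, p.2 < dist p.1 x}

theorem isOpen_rem (M : Finset (X × ℝ)) : IsOpen (Rem M) := by
  have : Rem M = ⋂ p ∈ M, {x | p.2 < dist p.1 x} := by
    ext x; simp [Rem]
  rw [this]
  refine isOpen_biInter_finset fun p _ => ?_
  exact isOpen_lt continuous_const (by fun_prop)

theorem continuous_infDist_wijsman (x : X) :
    Continuous[wijsman X, inferInstance] (fun A : Hyper X => infDist x A.1) := by
  rw [continuous_iff_le_induced]
  exact iInf_le _ x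

theorem isOpen_box (H M : Finset (X × ℝ)) : IsOpen[wijsman X] (Box H M) := by
  let _ : TopologicalSpace (Hyper X) := wijsman X
  have : Box H M = (⋂ p ∈ H, {A : Hyper X | infDist p.1 A.1 < p.2}) ∩
      ⋂ p ∈ M, {A : Hyper X | p.2 < infDist p.1 A.1} := by
    ext A
    simp only [Box, mem_inter_iff, mem_iInter, mem_ofPred_eq]
  rw [this]
  refine IsOpen.inter (isOpen_biInter_finset fun p _ => ?_) (isOpen_biInter_finset fun p _ => ?_)
  · exact isOpen_Iio.preimage (continuous_infDist_wijsman p.1)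
  · exact isOpen_Ioi.preimage (continuous_infDist_wijsman p.1)

theorem exists_box (U : Set (Hyper X)) (hU : IsOpen[wijsman X] U) (A : Hyper X) (hA : A ∈ U) :
    ∃ H M : Finset (X × ℝ), H.Nonempty ∧ A ∈ Box H M ∧ Box H M ⊆ U := by
  classical
  have h1 : U ∈ @nhds _ (wijsman X) A := by
    let _ : TopologicalSpace (Hyper X) := wijsman X
    exact hU.mem_nhds hA
  rw [nhds_iInf, Filter.mem_iInf] at h1
  obtain ⟨I, hI, V, hV, hUV⟩ := h1
  have h2 : ∀ i : I, ∃ ε : ℝ, 0 < ε ∧ ∀ B : Hyper X,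
      |infDist i.1 B.1 - infDist i.1 A.1| < ε → B ∈ V i := by
    intro i
    have h3 := hV i
    rw [nhds_induced, Filter.mem_comap] at h3
    obtain ⟨W, hW, hWV⟩ := h3
    obtain ⟨ε, hε, hεW⟩ := Metric.mem_nhds_iff.mp hW
    exact ⟨ε, hε, fun B hB => hWV (hεW hB)⟩
  choose ε hε hεV using h2
  have _ : Fintype I := hI.fintype
  obtain ⟨a, ha⟩ := A.2.2
  refine ⟨insert (a, infDist a A.1 + 1)
      (Finset.univ.image fun i : I => ((i : X), infDist (i : X) A.1 + ε i)),
    Finset.univ.image fun i : I => ((i : X), infDist (i : X) A.1 - ε i),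
    Finset.insert_nonempty _ _, ⟨?_, ?_⟩, ?_⟩
  · intro p hp
    rw [Finset.mem_insert, Finset.mem_image] at hp
    rcases hp with rfl | ⟨i, _, rfl⟩
    · exact lt_add_one _
    · exact lt_add_of_pos_right _ (hε i)
  · intro p hp
    rw [Finset.mem_image] at hp
    obtain ⟨i, _, rfl⟩ := hp
    exact sub_lt_self _ (hε i)
  · intro B hB
    rw [hUV]
    refine mem_iInter.mpr fun i => hεV i B ?_
    rw [abs_lt]
    have h4 := hB.1 (i.1, infDist i.1 A.1 + ε i)
      (Finset.mem_insert_of_mem (Finset.mem_image_of_mem _ (Finset.mem_univ i)))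
    have h5 := hB.2 (i.1, infDist i.1 A.1 - ε i)
      (Finset.mem_image_of_mem _ (Finset.mem_univ i))
    constructor <;> simp only at h4 h5 <;> linarith

/-- How one box can be contained in another one. -/
theorem box_sub {K L H M : Finset (X × ℝ)} (hK : K.Nonempty) (hne : (Box K L).Nonempty)
    (hsub : Box K L ⊆ Box H M) :
    Rem L ⊆ Rem M ∧ ∀ h ∈ H, ∃ k ∈ K, ball k.1 k.2 ∩ Rem L ⊆ ball h.1 h.2 := by
  classical
  constructor
  · intro x hx p hp
    obtain ⟨A, hA⟩ := hne
    let B : Hyper X := ⟨insert x A.1, by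
      rw [insert_eq]; exact isClosed_singleton.union A.2.1, insert_nonempty _ _⟩
    have hB : B ∈ Box K L := by
      refine ⟨fun q hq => ?_, fun q hq => ?_⟩
      · exact (infDist_le_infDist_of_subset (subset_insert x A.1) A.2.2).trans_lt (hA.1 q hq)
      · refine lt_of_lt_of_le (lt_min (hx q hq) (hA.2 q hq)) ?_
        refine (le_infDist (insert_nonempty _ _)).mpr fun y hy => ?_
        rcases hy with rfl | hy
        · exact min_le_left _ _
        · exact (min_le_right _ _).trans (infDist_le_dist_of_mem hy)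
    exact ((hsub hB).2 p hp).trans_le (infDist_le_dist_of_mem (mem_insert x A.1))
  · intro h hh
    by_contra hcon
    push Not at hcon
    have hpt : ∀ k : X × ℝ, ∃ y, k ∈ K → y ∈ ball k.1 k.2 ∩ Rem L ∧ y ∉ ball h.1 h.2 := by
      intro k
      by_cases hk : k ∈ K
      · obtain ⟨y, hy1, hy2⟩ := not_subset.mp (hcon k hk)
        exact ⟨y, fun _ => ⟨hy1, hy2⟩⟩
      · exact ⟨h.1, fun h' => absurd h' hk⟩
    choose y hy using hpt
    let F : Finset X := K.image y
    have hFne : (F : Set X).Nonempty := by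
      rw [Finset.coe_nonempty]
      exact hK.image y
    let B : Hyper X := ⟨F, F.finite_toSet.isClosed, hFne⟩
    have hmin : ∀ x : X, ∃ z ∈ F, infDist x (F : Set X) = dist x z := fun x =>
      F.finite_toSet.isCompact.exists_infDist_eq_dist hFne x
    have hB : B ∈ Box K L := by
      refine ⟨fun q hq => ?_, fun q hq => ?_⟩
      · have h1 : y q ∈ (F : Set X) := Finset.mem_coe.mpr (Finset.mem_image_of_mem y hq)
        refine (infDist_le_dist_of_mem h1).trans_lt ?_
        have := (hy q hq).1.1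
        rwa [mem_ball, dist_comm] at this
      · obtain ⟨z, hz, hz2⟩ := hmin q.1
        show q.2 < infDist q.1 (F : Set X)
        rw [hz2]
        obtain ⟨k, hk, rfl⟩ := Finset.mem_image.mp hz
        exact (hy k hk).1.2 q hq
    have h2 := (hsub hB).1 h hh
    obtain ⟨z, hz, hz2⟩ := hmin h.1
    have h3 : infDist h.1 (F : Set X) < h.2 := h2
    rw [hz2] at h3
    obtain ⟨k, hk, rfl⟩ := Finset.mem_image.mp hz
    apply (hy k hk).2
    rwa [mem_ball, dist_comm]

end Boxes

theorem tactic_wijsman (X : Type u) [MetricSpace X]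
    (hX : StronglyAlphaFavorable X inferInstance) :
    StronglyAlphaFavorable (Hyper X) (wijsman X) := by
  classical
  obtain ⟨T, hT1, hT2⟩ := hX
  have hstep : ∀ (A : Hyper X) (U : Set (Hyper X)),
      ∃ (H M H' M' : Finset (X × ℝ)) (pt : X × ℝ → X) (nx : X × ℝ → X × ℝ),
        A ∈ U → IsOpen[wijsman X] U → H.Nonempty ∧ H'.Nonempty ∧ Box H M ⊆ U ∧
          A ∈ Box H M ∧ A ∈ Box H' M' ∧ Box H' M' ⊆ Box H M ∧
          (∀ h ∈ H, pt h ∈ ball h.1 h.2 ∩ Rem M ∧ nx h ∈ H' ∧
            ball (nx h).1 (nx h).2 ⊆ T (pt h) (ball h.1 h.2 ∩ Rem M)) ∧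
          ∀ p ∈ M, ∃ p' ∈ M', p'.1 = p.1 ∧ p.2 < p'.2 := by
    intro A U
    by_cases hc : A ∈ U ∧ IsOpen[wijsman X] U
    swap
    · exact ⟨∅, ∅, ∅, ∅, Prod.fst, id, fun h1 h2 => absurd ⟨h1, h2⟩ hc⟩
    obtain ⟨hAU, hU⟩ := hc
    obtain ⟨H, M, hH, hA, hHU⟩ := exists_box U hU A hAU
    have hpt : ∀ h : X × ℝ, ∃ (y : X) (r : ℝ), h ∈ H → y ∈ A.1 ∧ y ∈ ball h.1 h.2 ∩ Rem M ∧
        0 < r ∧ ball y r ⊆ T y (ball h.1 h.2 ∩ Rem M) := by
      intro h
      by_cases hh : h ∈ H
      swap
      · exact ⟨h.1, h.2, fun h' => absurd h' hh⟩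
      obtain ⟨y, hyA, hy⟩ := (infDist_lt_iff A.2.2).mp (hA.1 h hh)
      have hy2 : y ∈ ball h.1 h.2 ∩ Rem M :=
        ⟨by rwa [mem_ball, dist_comm],
          fun p hp => (hA.2 p hp).trans_le (infDist_le_dist_of_mem hyA)⟩
      have hop := hT1 y (ball h.1 h.2 ∩ Rem M) hy2 (isOpen_ball.inter (isOpen_rem M))
      obtain ⟨r, hr, hr2⟩ := Metric.mem_nhds_iff.mp (hop.1.mem_nhds hop.2.1)
      exact ⟨y, r, fun _ => ⟨hyA, hy2, hr, hr2⟩⟩
    choose y r hyr using hpt
    have hlow : ∀ p : X × ℝ, ∃ c : ℝ, p ∈ M → p.2 < c ∧ c < infDist p.1 A.1 := by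
      intro p
      by_cases hp : p ∈ M
      · obtain ⟨c, hc⟩ := exists_between (hA.2 p hp)
        exact ⟨c, fun _ => hc⟩
      · exact ⟨0, fun h' => absurd h' hp⟩
    choose c hc using hlow
    refine ⟨H, M, H.image fun h => (y h, r h), M.image fun p => (p.1, c p), y,
      fun h => (y h, r h), fun _ _ => ⟨hH, hH.image _, hHU, hA, ⟨?_, ?_⟩, ?_, ?_, ?_⟩⟩
    · intro q hq
      obtain ⟨h, hh, rfl⟩ := Finset.mem_image.mp hq
      refine (infDist_le_dist_of_mem (hyr h hh).1).trans_lt ?_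
      rw [dist_self]
      exact (hyr h hh).2.2.1
    · intro q hq
      obtain ⟨p, hp, rfl⟩ := Finset.mem_image.mp hq
      exact (hc p hp).2
    · intro B hB
      refine ⟨fun h hh => ?_, fun p hp => ?_⟩
      · have h1 := hB.1 (y h, r h) (Finset.mem_image_of_mem _ hh)
        obtain ⟨z, hzB, hz⟩ := (infDist_lt_iff B.2.2).mp h1
        have h2 : z ∈ ball (y h) (r h) := by rwa [mem_ball, dist_comm]
        have h3 := (hT1 (y h) _ (hyr h hh).2.1 (isOpen_ball.inter (isOpen_rem M))).2.2
          ((hyr h hh).2.2.2 h2)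
        refine (infDist_le_dist_of_mem hzB).trans_lt ?_
        rw [dist_comm]
        exact h3.1
      · exact (hc p hp).1.trans (hB.2 (p.1, c p) (Finset.mem_image_of_mem _ hp))
    · intro h hh
      exact ⟨(hyr h hh).2.1, Finset.mem_image_of_mem _ hh, (hyr h hh).2.2.2⟩
    · intro p hp
      exact ⟨(p.1, c p), Finset.mem_image_of_mem _ hp, rfl, (hc p hp).1⟩
  choose H M H' M' pt nx hall using hstep
  refine ⟨fun A U => Box (H' A U) (M' A U), fun A U hA hU => ?_, fun A U hAU hnext => ?_⟩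
  · obtain ⟨-, -, h1, -, h2, h3, -⟩ := hall A U hA hU
    exact ⟨isOpen_box _ _, h2, h3.trans h1⟩
  have hall' := fun n => hall (A n) (U n) (hAU n).1 (hAU n).2
  have hsub : ∀ n, Rem (M (A (n + 1)) (U (n + 1))) ⊆ Rem (M' (A n) (U n)) ∧
      ∀ h ∈ H' (A n) (U n), ∃ k ∈ H (A (n + 1)) (U (n + 1)),
        ball k.1 k.2 ∩ Rem (M (A (n + 1)) (U (n + 1))) ⊆ ball h.1 h.2 := by
    intro n
    refine box_sub (hall' (n + 1)).1 ⟨A (n + 1), (hall' (n + 1)).2.2.2.1⟩ ?_
    exact (hall' (n + 1)).2.2.1.trans (hnext n)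
  -- the threads
  have hnxt : ∀ (n : ℕ) (h : X × ℝ), ∃ k : X × ℝ, h ∈ H (A n) (U n) →
      k ∈ H (A (n + 1)) (U (n + 1)) ∧
        ball k.1 k.2 ∩ Rem (M (A (n + 1)) (U (n + 1))) ⊆
          T (pt (A n) (U n) h) (ball h.1 h.2 ∩ Rem (M (A n) (U n))) := by
    intro n h
    by_cases hh : h ∈ H (A n) (U n)
    swap
    · exact ⟨h, fun h' => absurd h' hh⟩
    have h1 := (hall' n).2.2.2.2.2.2.1 h hh
    obtain ⟨k, hk, hk2⟩ := (hsub n).2 _ h1.2.1
    exact ⟨k, fun _ => ⟨hk, hk2.trans h1.2.2⟩⟩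
  choose s hs using hnxt
  have hremM : ∀ n, Rem (M' (A n) (U n)) ⊆ Rem (M (A n) (U n)) := by
    intro n x hx p hp
    obtain ⟨p', hp', h1, h2⟩ := (hall' n).2.2.2.2.2.2.2 p hp
    have h3 := hx p' hp'
    rw [h1] at h3
    exact h2.trans h3
  have hremanti : Antitone fun n => Rem (M (A n) (U n)) :=
    antitone_nat_of_succ_le fun n => (hsub n).1.trans (hremM n)
  have hlim : ∀ (n : ℕ) (h : X × ℝ), ∃ z : X, h ∈ H (A n) (U n) →
      z ∈ ball h.1 h.2 ∧ ∀ m, z ∈ Rem (M' (A m) (U m)) := by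
    intro n h
    by_cases hh : h ∈ H (A n) (U n)
    swap
    · exact ⟨h.1, fun h' => absurd h' hh⟩
    let k : ℕ → X × ℝ := fun j => Nat.rec h (fun i q => s (n + i) q) j
    have hk : ∀ j, k j ∈ H (A (n + j)) (U (n + j)) := by
      intro j
      induction j with
      | zero => exact hh
      | succ j ih => exact (hs (n + j) (k j) ih).1
    obtain ⟨z, hz⟩ := hT2 (fun j => pt (A (n + j)) (U (n + j)) (k j))
      (fun j => ball (k j).1 (k j).2 ∩ Rem (M (A (n + j)) (U (n + j))))
      (fun j => ⟨((hall' (n + j)).2.2.2.2.2.2.1 _ (hk j)).1, isOpen_ball.inter (isOpen_rem _)⟩)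
      (fun j => (hs (n + j) (k j) (hk j)).2)
    have hz' : ∀ j, z ∈ ball (k j).1 (k j).2 ∩ Rem (M (A (n + j)) (U (n + j))) := by
      intro j
      exact (hT1 _ _ ((hall' (n + j)).2.2.2.2.2.2.1 _ (hk j)).1
        (isOpen_ball.inter (isOpen_rem _))).2.2 (mem_iInter.mp hz j)
    refine ⟨z, fun _ => ⟨(hz' 0).1, fun m => (hsub m).1 ?_⟩⟩
    exact hremanti (by omega : m + 1 ≤ n + (m + 1)) (hz' (m + 1)).2
  choose z hz using hlim
  let Z : Set X := {x | ∃ n, ∃ h ∈ H (A n) (U n), x = z n h}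
  obtain ⟨h0, hh0⟩ := (hall' 0).1
  have hZne : Z.Nonempty := ⟨z 0 h0, 0, h0, hh0, rfl⟩
  let L : Hyper X := ⟨closure Z, isClosed_closure, hZne.closure⟩
  have hL : ∀ n, L ∈ Box (H (A n) (U n)) (M (A n) (U n)) := by
    intro n
    refine ⟨fun h hh => ?_, fun p hp => ?_⟩
    · show infDist h.1 (closure Z) < h.2
      rw [infDist_closure]
      refine (infDist_le_dist_of_mem (show z n h ∈ Z from ⟨n, h, hh, rfl⟩)).trans_lt ?_
      rw [dist_comm]
      exact (hz n h hh).1
    · show p.2 < infDist p.1 (closure Z)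
      rw [infDist_closure]
      obtain ⟨p', hp', h1, h2⟩ := (hall' n).2.2.2.2.2.2.2 p hp
      refine h2.trans_le ((le_infDist hZne).mpr ?_)
      rintro x ⟨m, h, hh, rfl⟩
      rw [← h1]
      exact ((hz m h hh).2 n p' hp').le
  refine ⟨L, mem_iInter.mpr fun n => ?_⟩
  exact hnext n ((hall' (n + 1)).2.2.1 (hL (n + 1)))

/-- Affirmative answer to Q2 and Q1: let `X` be completely metrizable and consider any compatible
metric on it (the ambient one). In the strong Choquet game on the nonempty closed subsets of `X`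
with the Wijsman topology of this metric the nonempty player has a winning tactic, and hence a
winning strategy. -/
theorem result (X : Type u) [MetricSpace X] [TopologicalSpace.IsCompletelyMetrizableSpace X] :
    StronglyAlphaFavorable (Hyper X) (wijsman X) ∧ StronglyChoquet (Hyper X) (wijsman X) :=
  ⟨tactic_wijsman X (tactic_of_completelyMetrizable X),
    (tactic_wijsman X (tactic_of_completelyMetrizable X)).stronglyChoquet⟩

end Pool.Agent.Results.MP_491d6e_gt.WijsmanTactic
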